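import Pool.Agent.H56.BD.StmtsT

/-! # Module K4 -/

set_option autoImplicit false

namespace Pool.BD

open Relation

theorem k4 (h3 : W3) (hweq : WEQ) (hwan : WAN) (hwla : WLA) : K4 := by
  intro V _ G rk H q Q L R b nh sp
  have hb := sp.1
  have key : ∀ n, ∀ u ∈ Ds G rk H b, rk u = n → Anc H q R u b ∨ R.hi u < R.lo b := by
    intro n
    induction n using Nat.strong_induction_on with
    | _ n ih =>
      intro u hu hn
      by_cases huq : u = q
      · subst huq
        exact Or.inl (nh.ok.isR.root_anc nh.ok.parR b hb)
      · have hp := nh.ok.isR.par u hu.1 huq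
        have hpr := nh.ok.parR u hu.1 huq
        have hch := nh.ok.isR.ch u hu.1 huq
        have hpu : Ar G rk (R.par u) u := ⟨hp.2, hpr⟩
        have hpD : R.par u ∈ Ds G rk H b := ⟨hp.1, ReflTransGen.head hpu hu.2⟩
        rcases ih (rk (R.par u)) (by omega) (R.par u) hpD rfl with h1 | h1
        · by_cases hpb : R.par u = b
          · exfalso
            have := Re.rank hu.2
            rw [hpb] at hpr
            omega
          · obtain ⟨w, e, hw⟩ := hwan V G rk H q Q L R b nh sp _ h1
            have h4 := (hweq V G rk H q Q L R b nh sp _ _ _ hw).2 hpb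
            by_cases hwu : u = w
            · left; rw [hwu]; exact h4.2
            · right
              have h5 := hwla V G rk H q Q L R b nh sp _ _ _ hw hpb u hu hwu
                (nh.ok.isR.ch_dn nh.ok.parR hu.1 huq)
              have h6 := (h3 V G rk H q Q L R b nh sp).1 _ _ _ hw
              rcases h6.2.2 with h7 | h7
              · exact absurd h7.1 hpb
              · have hwq : w ≠ q := by
                  intro he
                  have h8 := Anc.rank nh.ok.parR (nh.ok.isR.root_anc nh.ok.parR (R.par u) hp.1)
                  have h9 := h7.2.2.1.2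
                  rw [he] at h9
                  omega
                have hw2 : Dn G H q Q R (R.par u) w := by
                  have := nh.ok.isR.ch_dn nh.ok.parR h7.2.1.1 hwq
                  rwa [h4.1] at this
                have h8 := (nh.ok.isR.sep _ _ _ (nh.ok.isR.ch_dn nh.ok.parR hu.1 huq) hw2 h5).2.2
                  ⟨hu.1, huq, rfl⟩ ⟨h7.2.1.1, hwq, h4.1⟩
                have h9 := nh.ok.isR.anc_le h4.2
                omega
        · right; omega
  exact fun u hu => key _ u hu rfl

end Pool.BD
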