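import Pool.Agent.H56.BD.StmtsT

/-! # Module NOD -/

set_option autoImplicit false

namespace Pool.BD

open Relation

open Classical in
theorem nod (h1 : NSE) (h2 : UPN) : NOD := by
  intro V _ G rk q0 hinj hmin hmt
  obtain ⟨L, R0, hok, hsec⟩ := hmt
  obtain ⟨ρ, t, ns⟩ := h1 V G rk q0 L R0 hok
  have key : ∀ y, Nd G rk q0 ρ y → ∃ R : Ct V,
      NH G rk (SU G rk q0 L t y) y (QU G q0 L t y) L R := by
    intro y hy
    by_cases hq : y = q0
    · subst hq
      refine ⟨R0, ?_⟩
      have e1 : SU G rk y L t y = {v | Re G rk y v} := by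
        ext x
        simp only [SU, Set.mem_setOf_eq]
        refine ⟨fun h => h.1, fun h => ⟨h, ?_⟩⟩
        by_cases hx : x = y
        · exact Or.inl hx
        · have h3 := hok.isL.root_anc hok.parL x h
          have h4 := hok.isL.anc_block h3 (Ne.symm hx)
          rw [ns.t0]
          exact Or.inr h4
      have e2 : QU G y L t y = Set.univ := by
        unfold QU; exact if_pos rfl
      rw [e1, e2]
      exact ⟨hok, fun u hu _ v hv => ReflTransGen.tail hu hv, hinj⟩
    · rcases hy with hy | ⟨b, hb, hbq, hby⟩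
      · exact absurd hy hq
      · subst hby
        obtain ⟨u, hu, hau, hpu, htu⟩ := ns.land b hb hbq hq
        have hy := (ns.rU b hb hbq).1
        obtain ⟨R, hR⟩ := hsec (ρ b) u hy hu.1 hq hau hpu
        refine ⟨R, ?_⟩
        have e1 : SU G rk q0 L t (ρ b) = Sec L {v | Re G rk q0 v} (ρ b) u := by
          ext x
          simp only [SU, Sec, Set.mem_setOf_eq, htu]
          constructor
          · rintro ⟨h0, h | h⟩
            · exact Or.inl h
            · exact Or.inr ⟨h0, h⟩
          · rintro (h | h)
            · exact ⟨h ▸ hy, Or.inl h⟩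
            · exact ⟨h.1, Or.inr h.2⟩
        have e2 : QU G q0 L t (ρ b) = SecQ G L (ρ b) u := by
          unfold QU
          rw [if_neg hq, htu]
          rfl
        rw [e1, e2]
        exact ⟨hR, h2 V G rk q0 L R0 hok (ρ b) u hy hu.1 hq hau hpu, hinj⟩
  refine ⟨L, ρ, t, fun y => if h : Nd G rk q0 ρ y then (key y h).choose else R0, ns, ?_⟩
  intro y hy
  have := (key y hy).choose_spec
  simp only [dif_pos hy]
  exact this

end Pool.BD
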