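import Pool.Agent.H56.BD.StmtsT

/-! # Module WFD -/

set_option autoImplicit false

namespace Pool.BD

open Relation

namespace WFDm

variable {V : Type} {G : SimpleGraph V} {rk : V → ℕ} {q0 : V} {L : Ct V} {ρ : V → V} {t : V → ℤ}
  {SC : V → List (Fin 4 × V)}

/-- a letter of a chain word -/
theorem letter (ns : NS G rk q0 L ρ t) (hs : IsSC G rk q0 ρ SC) :
    ∀ n, ∀ y, Re G rk q0 y → rk y = n → ∀ (p s : List (Fin 4 × V)) (e : Fin 4 × V),
      SC y = p ++ e :: s → e.1 = 1 ∧ Re G rk q0 e.2 ∧ e.2 ≠ q0 ∧ p = SC (ρ e.2) ∧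
        ReflTransGen (Dw G rk q0 ρ) e.2 y := by
  intro n
  induction n using Nat.strong_induction_on with
  | _ n ih =>
    intro y hy hn p s e he
    by_cases hq : y = q0
    · subst hq
      rw [hs.root] at he
      simp at he
    · have hr := ns.rU y hy hq
      rw [hs.step y hy hq] at he
      rcases List.eq_nil_or_concat' s with h1 | ⟨s1, l, h1⟩
      · subst h1
        have h2 := List.append_inj' he rfl
        have h3 : e = (1, y) := by
          have := h2.2
          simp only [List.cons.injEq, and_true] at this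
          exact this.symm
        subst h3
        exact ⟨rfl, hy, hq, h2.1.symm, ReflTransGen.refl⟩
      · subst h1
        have h2 : SC (ρ y) ++ [(1, y)] = (p ++ e :: s1) ++ [l] := by
          rw [he]; simp
        have h3 := List.append_inj' h2 rfl
        have h4 := ih (rk (ρ y)) (by omega) (ρ y) hr.1 rfl p s1 e h3.1
        exact ⟨h4.1, h4.2.1, h4.2.2.1, h4.2.2.2.1, h4.2.2.2.2.tail ⟨hy, hq, rfl⟩⟩

theorem inj (ns : NS G rk q0 L ρ t) (hs : IsSC G rk q0 ρ SC) {x y : V} (hx : Re G rk q0 x)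
    (hy : Re G rk q0 y) (he : SC x = SC y) : x = y := by
  by_cases hxq : x = q0
  · by_cases hyq : y = q0
    · rw [hxq, hyq]
    · exfalso
      rw [hxq, hs.root, hs.step y hy hyq] at he
      simp at he
  · by_cases hyq : y = q0
    · exfalso
      rw [hyq, hs.root, hs.step x hx hxq] at he
      simp at he
    · rw [hs.step x hx hxq, hs.step y hy hyq] at he
      have h2 := List.append_inj' he rfl
      have := h2.2
      simp only [List.cons.injEq, Prod.mk.injEq, and_true, true_and] at this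
      exact this

theorem pre (hs : IsSC G rk q0 ρ SC) {x y : V}
    (h : ReflTransGen (Dw G rk q0 ρ) x y) : ∃ l, SC y = SC x ++ l := by
  induction h with
  | refl => exact ⟨[], by simp⟩
  | @tail b c h1 h2 ih =>
    obtain ⟨l, hl⟩ := ih
    obtain ⟨h3, h4, h5⟩ := h2
    refine ⟨l ++ [(1, c)], ?_⟩
    rw [hs.step c h3 h4, h5, hl]
    simp

end WFDm

open WFDm in
theorem wfd : WFD := by
  intro V G rk q0 L ρ t SC z g ns hs hz hg x y p s s' e e' hne hx hy
  have dec : ∀ x (s : List (Fin 4 × V)) (e : Fin 4 × V), SC (z x) ++ [(g x, x)] = p ++ e :: s →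
      (e = (g x, x) ∧ p = SC (z x)) ∨
      ∃ s1, SC (z x) = p ++ e :: s1 := by
    intro x s e hx
    rcases List.eq_nil_or_concat' s with h1 | ⟨s1, l, h1⟩
    · subst h1
      have h2 := List.append_inj' hx rfl
      have := h2.2
      simp only [List.cons.injEq, and_true] at this
      exact Or.inl ⟨this.symm, h2.1.symm⟩
    · subst h1
      have h2 : SC (z x) ++ [(g x, x)] = (p ++ e :: s1) ++ [l] := by
        rw [hx]; simp
      have h3 := List.append_inj' h2 rfl
      exact Or.inr ⟨s1, h3.1⟩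
  rcases dec x s e hx with ⟨h1, h2⟩ | ⟨s1, h1⟩
  · right
    rcases dec y s' e' hy with ⟨h3, h4⟩ | ⟨s2, h3⟩
    · have h5 : z y = z x := inj ns hs (hz y) (hz x) (h4 ▸ h2)
      exact ⟨h1, h5 ▸ ReflTransGen.refl, Or.inl ⟨h3, h5⟩⟩
    · have h4 := letter ns hs _ (z y) (hz y) rfl p s2 e' h3
      have h5 : ρ e'.2 = z x :=
        inj ns hs (ns.rU e'.2 h4.2.1 h4.2.2.1).1 (hz x) (h4.2.2.2.1.symm.trans h2)
      have h6 : Dw G rk q0 ρ (z x) e'.2 := ⟨h4.2.1, h4.2.2.1, h5⟩
      exact ⟨h1, ReflTransGen.head h6 h4.2.2.2.2, Or.inr ⟨h4.1, h6, h4.2.2.2.2⟩⟩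
  · left
    have h4 := letter ns hs _ (z x) (hz x) rfl p s1 e h1
    refine ⟨h4.1, fun hr => ?_⟩
    obtain ⟨l, hl⟩ := pre hs hr
    rw [hl, h1] at hy
    have h5 : e :: (s1 ++ l ++ [(g y, y)]) = e' :: s' := by
      have : p ++ (e :: (s1 ++ l ++ [(g y, y)])) = p ++ (e' :: s') := by
        rw [← hy]; simp
      exact List.append_cancel_left this
    simp only [List.cons.injEq] at h5
    exact hne h5.1

end Pool.BD
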