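import Pool.Agent.H56.BD.StmtsT

/-! # Module WLA -/

set_option autoImplicit false

namespace Pool.BD

open Relation

theorem wla (_h1 : W1) (h3 : W3) (hweq : WEQ) : WLA := by
  intro V _ G rk H q Q L R b nh sp x w e hw hxb z hz hzw hdn
  have hI := (h3 V G rk H q Q L R b nh sp).1 _ _ _ hw
  have iL := nh.ok.isL
  have iR := nh.ok.isR
  rcases hI.2.2 with h7 | ⟨_, hwD, haw, hdw, hew, hbe⟩
  · exact absurd h7.1 hxb
  have hxH : x ∈ H := hdw.1
  have hwq : w ≠ q := by
    intro he
    have h8 := Anc.rank nh.ok.parL (iL.root_anc nh.ok.parL x hxH)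
    have h9 := haw.2
    rw [he] at h9
    omega
  -- the position of `w` is at most `e`
  have hpe : L.pos x w ≤ e := by
    rw [hew]
    unfold Ed
    split_ifs with hc
    · have := iL.ch w hc.1 hc.2.1
      rw [hc.2.2] at this
      exact this.2.2.1
    · exact le_rfl
  -- darts after `w` are after `e`
  have haft : ∀ z, z ≠ w → Dn G H q Q L x z → ¬ e < L.pos x z → L.pos x z < L.pos x w := by
    intro z hzw hd hn
    rcases lt_trichotomy (L.pos x w) (L.pos x z) with h | h | h
    · exfalso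
      apply hn
      rw [hew]
      unfold Ed
      split_ifs with hc
      · exact (iL.sep _ _ _ hdw hd h).1 hc
      · exact h
    · exact absurd (iL.inj _ _ _ hdw hd h).symm hzw
    · exact h
  by_cases hxq : x = q
  · subst hxq
    have hzL : Dn G H x Q L x z := ⟨hxH, hdn.2.1, hdn.2.2.1, fun h => absurd rfl h⟩
    have h4 := (h3 V G rk H x Q L R b nh sp).2.2.1 w e hw z hz hzL
    have h5 := haft z hzw hzL h4
    exact (nh.ok.rotq z (hdn.2.2.1 rfl) w (hdw.2.2.1 rfl) hdn.2.1 hdw.2.1).1 h5
  · obtain ⟨g, hg⟩ := (h3 V G rk H q Q L R b nh sp).2.1 _ _ _ hw hxq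
    have hst := Wk.step hw hg
    have hI2 := (h3 V G rk H q Q L R b nh sp).1 _ _ _ hst
    have hgb : g ≠ b ∧ Ar G rk g x := by
      rcases hI2.2.2 with h | h
      · exact absurd h.2.1 hxb
      · exact ⟨h.1, h.2.2.1⟩
    have hpar := ((hweq V G rk H q Q L R b nh sp _ _ _ hst).2 hgb.1).1
    have hzg : z ≠ g := by
      rw [← hpar]
      exact hdn.2.2.2 hxq
    have hwg : w ≠ g := by
      intro he
      have h8 := haw.2
      have h9 := hgb.2.2
      rw [he] at h8
      omega
    have hwL : w ≠ L.par x := hdw.2.2.2 hxq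
    have hbw := iL.dn _ _ hdw
    -- cyclic order in `L`
    have hcyc : Cyc (L.val x w) (L.val x g) (L.val x z) := by
      rw [Ct.val_ne hwL]
      rcases hg with ⟨hgD, hgd, hge, hgm⟩ | ⟨hno, _, hgp⟩
      · have hgL : g ≠ L.par x := hgd.2.2.2 hxq
        rw [Ct.val_ne hgL]
        have hgx := iL.dn _ _ hgd
        by_cases hzp : z = L.par x
        · rw [Ct.val_par hzp]
          exact Or.inl ⟨by omega, by omega⟩
        · rw [Ct.val_ne hzp]
          have hzd : Dn G H q Q L x z := ⟨hxH, hdn.2.1, fun h => absurd h hxq, fun _ => hzp⟩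
          by_cases hez : e < L.pos x z
          · have h5 := hgm z hz hzd hez
            have h6 : L.pos x g ≠ L.pos x z := fun he => hzg (iL.inj _ _ _ hgd hzd he).symm
            exact Or.inl ⟨by omega, by omega⟩
          · have h5 := haft z hzw hzd hez
            exact Or.inr (Or.inr ⟨by omega, by omega⟩)
      · have hzp : z ≠ L.par x := hgp ▸ hzg
        rw [Ct.val_par hgp, Ct.val_ne hzp]
        have hzd : Dn G H q Q L x z := ⟨hxH, hdn.2.1, fun h => absurd h hxq, fun _ => hzp⟩
        have h5 := haft z hzw hzd (hno z hz hzd)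
        exact Or.inr (Or.inr ⟨by omega, by omega⟩)
    have hcR := (nh.ok.rot x hxH hxq w g z haw.1 hgb.2.1.symm hdn.2.1 hwg (Ne.symm hzg)
      (Ne.symm hzw)).1 hcyc
    have hwR : w ≠ R.par x := hpar ▸ hwg
    have hzR : z ≠ R.par x := hpar ▸ hzg
    rw [Ct.val_ne hwR, Ct.val_par hpar.symm, Ct.val_ne hzR] at hcR
    have hwd : Dn G H q Q R x w := ⟨hxH, haw.1, fun h => absurd h hxq, fun _ => hwR⟩
    have h5 := iR.dn _ _ hwd
    have h6 := iR.dn _ _ hdn
    unfold Cyc at hcR
    omega

end Pool.BD
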